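import Pool.Agent.Q71.MO.Volt

/-! Volterra integral equations of the first kind with an Abel kernel. -/

set_option autoImplicit false

open MeasureTheory Set Filter Topology
open scoped ContDiff

namespace Q71.MO

/-- the arcsine weight -/
noncomputable def om (x : ℝ) : ℝ := (√x)⁻¹ * (√(1 - x))⁻¹

theorem om_int : IntervalIntegrable om volume 0 1 := by
  have h1 : IntervalIntegrable om volume 0 (1/2) := by
    refine (inv_sqrt_int' 0 (1/2)).mul_continuousOn ?_
    refine ContinuousOn.inv₀ (by fun_prop) fun x hx => ?_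
    rw [uIcc_of_le (by norm_num)] at hx
    exact (Real.sqrt_pos.2 (by linarith [hx.2])).ne'
  have h2 : IntervalIntegrable om volume (1/2) 1 := by
    refine (inv_sqrt_int (1/2) 1 1).continuousOn_mul ?_
    refine ContinuousOn.inv₀ (by fun_prop) fun x hx => ?_
    rw [uIcc_of_le (by norm_num)] at hx
    exact (Real.sqrt_pos.2 (by linarith [hx.1])).ne'
  exact h1.trans h2

theorem om_pos : 0 < ∫ x in (0:ℝ)..1, om x := by
  refine intervalIntegral.intervalIntegral_pos_of_pos_on om_int (fun x hx => ?_) one_pos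
  have h1 : 0 < √x := Real.sqrt_pos.2 hx.1
  have h2 : 0 < √(1 - x) := Real.sqrt_pos.2 (by linarith [hx.2])
  unfold om
  positivity

theorem integ_abel {Φ : ℝ → ℝ → ℝ} (hΦ : Continuous (Function.uncurry Φ)) (T τ : ℝ) :
    Integrable (Function.uncurry fun t s => Φ t s * ((√(t - s))⁻¹ * (√(τ - t))⁻¹))
      ((volume.restrict (Ioc T τ)).prod (volume.restrict (Ioc T τ))) := by
  rcases le_or_gt τ T with hT | hT
  · simp [Ioc_eq_empty_of_le hT]
  set f₀ : ℝ → ℝ := (Ioc T τ).indicator (fun t => (√(τ - t))⁻¹) with hf₀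
  set g₀ : ℝ → ℝ := (Ioc (-(τ - T)) (τ - T)).indicator (fun y => (√(0 - y))⁻¹) with hg₀
  have hf : Integrable f₀ volume := by
    rw [hf₀, integrable_indicator_iff measurableSet_Ioc]
    exact (intervalIntegrable_iff_integrableOn_Ioc_of_le hT.le).1 (inv_sqrt_int T τ τ)
  have hg : Integrable g₀ volume := by
    rw [hg₀, integrable_indicator_iff measurableSet_Ioc]
    exact (intervalIntegrable_iff_integrableOn_Ioc_of_le (by linarith)).1
      (inv_sqrt_int (-(τ - T)) (τ - T) 0)
  have h1 := (Integrable.convolution_integrand (ContinuousLinearMap.mul ℝ ℝ) hf hg).swap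
  rw [Measure.prod_restrict]
  have h2 : IntegrableOn (fun p : ℝ × ℝ => (√(p.1 - p.2))⁻¹ * (√(τ - p.1))⁻¹)
      (Ioc T τ ×ˢ Ioc T τ) (volume.prod volume) := by
    refine h1.integrableOn.congr_fun ?_ (measurableSet_Ioc.prod measurableSet_Ioc)
    rintro ⟨t, s⟩ ⟨ht, hs⟩
    simp only [Function.comp, Prod.swap, ContinuousLinearMap.mul_apply']
    have h3 : s - t ∈ Ioc (-(τ - T)) (τ - T) :=
      ⟨by linarith [hs.1, ht.2], by linarith [hs.2, ht.1]⟩
    rw [hf₀, hg₀, indicator_of_mem ht, indicator_of_mem h3, mul_comm]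
    congr 2
    ring_nf
  obtain ⟨M, hM⟩ : ∃ M, ∀ p ∈ Icc T τ ×ˢ Icc T τ, ‖Function.uncurry Φ p‖ ≤ M :=
    (isCompact_Icc.prod isCompact_Icc).exists_bound_of_continuousOn hΦ.continuousOn
  refine Integrable.bdd_mul (c := M) (f := fun p => Function.uncurry Φ p) h2
    hΦ.aestronglyMeasurable ?_
  rw [ae_restrict_iff' (measurableSet_Ioc.prod measurableSet_Ioc)]
  exact Eventually.of_forall fun p hp => hM p (prod_mono Ioc_subset_Icc_self Ioc_subset_Icc_self hp)

/-- Abel transform of an Abel type integral. -/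
theorem abelSwap {Φ : ℝ → ℝ → ℝ} (hΦ : Continuous (Function.uncurry Φ)) {T τ : ℝ} (hT : T ≤ τ) :
    ∫ t in T..τ, (∫ s in T..t, Φ t s * (√(t - s))⁻¹) * (√(τ - t))⁻¹ =
      ∫ s in T..τ, ∫ x in (0:ℝ)..1, om x * Φ (s + (τ - s) * x) s := by
  have h1 : ∫ t in T..τ, (∫ s in T..t, Φ t s * (√(t - s))⁻¹) * (√(τ - t))⁻¹ =
      ∫ t in T..τ, ∫ s in T..t, Φ t s * ((√(t - s))⁻¹ * (√(τ - t))⁻¹) := by
    refine intervalIntegral.integral_congr fun t _ => ?_
    show _ * _ = _
    rw [← intervalIntegral.integral_mul_const]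
    refine intervalIntegral.integral_congr fun s _ => ?_
    show _ * _ * _ = _
    ring
  rw [h1, swap hT (integ_abel hΦ T τ)]
  refine intervalIntegral.integral_congr_ae ?_
  have h2 : ∀ᵐ s : ℝ, s ≠ τ := by
    rw [ae_iff]
    simp
  filter_upwards [h2] with s hs hs2
  rw [uIoc_of_le hT] at hs2
  have hd : 0 < τ - s := by
    have := lt_of_le_of_ne hs2.2 hs
    linarith
  have h3 := intervalIntegral.smul_integral_comp_add_mul (a := 0) (b := 1)
    (fun t => Φ t s * ((√(t - s))⁻¹ * (√(τ - t))⁻¹)) (τ - s) s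
  rw [mul_zero, add_zero, mul_one, add_sub_cancel] at h3
  rw [← h3, smul_eq_mul, ← intervalIntegral.integral_const_mul]
  refine intervalIntegral.integral_congr fun x hx => ?_
  show (τ - s) * (Φ (s + (τ - s) * x) s * ((√(s + (τ - s) * x - s))⁻¹ *
    (√(τ - (s + (τ - s) * x)))⁻¹)) = om x * Φ (s + (τ - s) * x) s
  rw [show s + (τ - s) * x - s = (τ - s) * x by ring,
    show τ - (s + (τ - s) * x) = (τ - s) * (1 - x) by ring, Real.sqrt_mul hd.le,
    Real.sqrt_mul hd.le, om]
  have h4 : √(τ - s) * √(τ - s) = τ - s := Real.mul_self_sqrt hd.le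
  have h5 : √(τ - s) ≠ 0 := (Real.sqrt_pos.2 hd).ne'
  rw [mul_inv, mul_inv]
  calc (τ - s) * (Φ (s + (τ - s) * x) s * ((√(τ - s))⁻¹ * (√x)⁻¹ * ((√(τ - s))⁻¹ * (√(1 - x))⁻¹)))
      = ((√(τ - s) * √(τ - s)) * ((√(τ - s))⁻¹ * (√(τ - s))⁻¹)) *
        ((√x)⁻¹ * (√(1 - x))⁻¹ * Φ (s + (τ - s) * x) s) := by rw [h4]; ring
    _ = _ := by
      rw [show √(τ - s) * √(τ - s) * ((√(τ - s))⁻¹ * (√(τ - s))⁻¹) = 1 by field_simp, one_mul]

/-- the smooth form of an Abel type integral -/
theorem abel_smooth {Φ : ℝ → ℝ → ℝ} (hΦ : ContDiff ℝ ∞ (Function.uncurry Φ)) {T : ℝ}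
    (hΦ0 : ∀ t, ∀ s ≤ T, Φ t s = 0) {T₁ : ℝ} (hT : T ≤ T₁) :
    ∃ P : ℝ → ℝ, ContDiff ℝ ∞ P ∧ (∀ t ≤ T, P t = 0) ∧
      ∀ t ∈ Icc T T₁, P t = ∫ s in T..t, Φ t s * (√(t - s))⁻¹ := by
  refine ⟨fun t => ∫ y in (0:ℝ)..(T₁ - T), (√y)⁻¹ * Φ t (t - y), ?_, fun t ht => ?_,
    fun t ht => ?_⟩
  · exact contDiff_param (by linarith) (inv_sqrt_int' _ _)
      (Ψ := fun t y => Φ t (t - y))
      (hΦ.comp (contDiff_fst.prodMk (contDiff_fst.sub contDiff_snd)))
  · show ∫ y in (0:ℝ)..(T₁ - T), (√y)⁻¹ * Φ t (t - y) = 0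
    rw [intervalIntegral.integral_of_le (by linarith)]
    refine setIntegral_eq_zero_of_forall_eq_zero fun y hy => ?_
    rw [hΦ0 t (t - y) (by linarith [hy.1]), mul_zero]
  · show ∫ y in (0:ℝ)..(T₁ - T), (√y)⁻¹ * Φ t (t - y) = _
    have h1 : ∫ s in T..t, Φ t s * (√(t - s))⁻¹ = ∫ y in (0:ℝ)..(t - T), (√y)⁻¹ * Φ t (t - y) := by
      have h2 := intervalIntegral.integral_comp_sub_left (a := 0) (b := t - T)
        (fun s => Φ t s * (√(t - s))⁻¹) t
      rw [sub_sub_cancel, sub_zero] at h2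
      rw [← h2]
      refine intervalIntegral.integral_congr fun y _ => ?_
      show Φ t (t - y) * (√(t - (t - y)))⁻¹ = _
      rw [sub_sub_cancel, mul_comm]
    have hii : ∀ a b : ℝ, IntervalIntegrable (fun y => (√y)⁻¹ * Φ t (t - y)) volume a b :=
      fun a b => (inv_sqrt_int' a b).mul_continuousOn
        (hΦ.continuous.comp (continuous_const.prodMk
          (continuous_const.sub continuous_id))).continuousOn
    rw [h1, ← intervalIntegral.integral_add_adjacent_intervals (hii 0 (t - T))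
      (hii (t - T) (T₁ - T))]
    have h3 : ∫ y in (t - T)..(T₁ - T), (√y)⁻¹ * Φ t (t - y) = 0 := by
      rw [intervalIntegral.integral_of_le (by linarith [ht.2])]
      refine setIntegral_eq_zero_of_forall_eq_zero fun y hy => ?_
      rw [hΦ0 t (t - y) (by linarith [hy.1]), mul_zero]
    rw [h3, add_zero]

/-- A Volterra integral equation of the first kind with an Abel kernel. -/
theorem abel_first {k : ℝ → ℝ → ℝ} (hk : ContDiff ℝ ∞ (Function.uncurry k))
    (hpos : ∀ t, 0 < k t t) {g : ℝ → ℝ} (hg : ContDiff ℝ ∞ g) {T T₁ : ℝ} (hT : T < T₁)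
    (hg0 : ∀ t ≤ T, g t = 0) :
    ∃ U : ℝ → ℝ, ContDiff ℝ ∞ U ∧ (∀ t ≤ T, U t = 0) ∧
      ∀ t ∈ Icc T T₁, ∫ s in T..t, U s * k t s * (√(t - s))⁻¹ = g t := by
  set c : ℝ := ∫ x in (0:ℝ)..1, om x with hc
  have hc0 : 0 < c := om_pos
  set n : ℝ → ℝ → ℝ := fun τ s => ∫ x in (0:ℝ)..1, om x * k (s + (τ - s) * x) s with hn
  have hns : ContDiff ℝ ∞ (Function.uncurry n) :=
    contDiff_param (by norm_num) om_int
      (Ψ := fun p : ℝ × ℝ => fun x => k (p.2 + (p.1 - p.2) * x) p.2)
      (hk.comp (((contDiff_snd.comp contDiff_fst).add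
        (((contDiff_fst.comp contDiff_fst).sub (contDiff_snd.comp contDiff_fst)).mul
          contDiff_snd)).prodMk (contDiff_snd.comp contDiff_fst)))
  have hnd : ∀ τ, n τ τ = c * k τ τ := by
    intro τ
    simp only [hn, sub_self, zero_mul, add_zero]
    rw [intervalIntegral.integral_mul_const]
  have hnp : ∀ τ, 0 < n τ τ := fun τ => by rw [hnd]; exact mul_pos hc0 (hpos τ)
  obtain ⟨G, hGs, hG0, hG⟩ := abel_smooth (Φ := fun _ s => g s) (hg.comp contDiff_snd)
    (fun _ s hs => hg0 s hs) hT.le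
  have hG' : ContDiff ℝ ∞ (deriv G) := ((contDiff_infty_iff_deriv).1 hGs).2
  have hG'0 : ∀ t ≤ T, deriv G t = 0 := by
    have h1 : Iio T ⊆ {t | deriv G t = 0} := by
      intro t ht
      have h2 : G =ᶠ[𝓝 t] fun _ => 0 := by
        filter_upwards [Iio_mem_nhds ht] with s hs
        exact hG0 s (le_of_lt hs)
      show deriv G t = 0
      rw [h2.deriv_eq, deriv_const]
    have h2 : IsClosed {t | deriv G t = 0} := isClosed_eq hG'.continuous continuous_const
    have h3 := closure_minimal h1 h2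
    rw [closure_Iio] at h3
    exact fun t ht => h3 ht
  set ν : ℝ → ℝ := fun τ => (n τ τ)⁻¹ with hν
  have hνs : ContDiff ℝ ∞ ν :=
    (hns.comp (contDiff_id.prodMk contDiff_id)).inv fun τ => (hnp τ).ne'
  obtain ⟨U, hUs, hU0, hU⟩ := volt_smooth (K := fun τ s => -(ν τ * d1 n τ s))
    (((hνs.comp contDiff_fst).mul (d1_smooth hns)).neg) (F := fun τ => ν τ * deriv G τ)
    (hνs.mul hG') hT.le (fun t ht => by rw [hG'0 t ht, mul_zero])
  refine ⟨U, hUs, hU0, ?_⟩
  -- the second kind equation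
  have hU2 : ∀ τ ∈ Icc T T₁, n τ τ * U τ + ∫ s in T..τ, d1 n τ s * U s = deriv G τ := by
    intro τ hτ
    have h1 := hU τ hτ
    have h2 : ∫ s in T..τ, -(ν τ * d1 n τ s) * U s = -(ν τ * ∫ s in T..τ, d1 n τ s * U s) := by
      rw [← intervalIntegral.integral_const_mul, ← intervalIntegral.integral_neg]
      refine intervalIntegral.integral_congr fun s _ => ?_
      show -(ν τ * d1 n τ s) * U s = _
      ring
    rw [h2] at h1
    have h3 : n τ τ * ν τ = 1 := mul_inv_cancel₀ (hnp τ).ne'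
    rw [h1]
    linear_combination (deriv G τ - ∫ s in T..τ, d1 n τ s * U s) * h3
  -- integrate it
  have hR : ∀ τ ∈ Icc T T₁, ∫ s in T..τ, n τ s * U s = G τ := by
    intro τ hτ
    have hcc : Continuous fun t => n t t * U t + ∫ s in T..t, d1 n t s * U s :=
      ((hns.continuous.comp (continuous_id.prodMk continuous_id)).mul hUs.continuous).add
        (cont_param (d1_smooth hns).continuous hUs.continuous T)
    have h1 := intervalIntegral.integral_eq_sub_of_hasDerivAt (a := T) (b := τ)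
      (f := fun t => ∫ s in T..t, n t s * U s)
      (fun t _ => leibniz hns hUs.continuous hU0 t) (hcc.intervalIntegrable _ _)
    have h2 := intervalIntegral.integral_eq_sub_of_hasDerivAt (a := T) (b := τ)
      (f := G) (f' := deriv G) (fun t _ => (hGs.differentiable (by simp) t).hasDerivAt)
      (hG'.continuous.intervalIntegrable _ _)
    have h3 : ∫ t in T..τ, (n t t * U t + ∫ s in T..t, d1 n t s * U s) = ∫ t in T..τ, deriv G t := by
      refine intervalIntegral.integral_congr fun t ht => ?_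
      rw [uIcc_of_le hτ.1] at ht
      exact hU2 t ⟨ht.1, ht.2.trans hτ.2⟩
    rw [h3, h2, hG0 T le_rfl] at h1
    simp only [intervalIntegral.integral_same, sub_zero] at h1
    exact h1.symm
  -- the Abel integral of U
  obtain ⟨P, hPs, hP0, hP⟩ := abel_smooth (Φ := fun t s => U s * k t s)
    ((hUs.comp contDiff_snd).mul hk) (fun t s hs => by rw [hU0 s hs, zero_mul]) hT.le
  set δ : ℝ → ℝ := fun t => P t - g t with hδ
  have hδs : ContDiff ℝ ∞ δ := hPs.sub hg
  have hA1 : ∀ τ ∈ Icc T T₁, ∫ t in T..τ, δ t * (√(τ - t))⁻¹ = 0 := by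
    intro τ hτ
    have h1 : ∫ t in T..τ, P t * (√(τ - t))⁻¹ = G τ := by
      rw [← hR τ hτ]
      have h2 := abelSwap (Φ := fun t s => U s * k t s)
        (((hUs.comp contDiff_snd).mul hk).continuous) hτ.1
      have h3 : ∫ t in T..τ, (∫ s in T..t, U s * k t s * (√(t - s))⁻¹) * (√(τ - t))⁻¹ =
          ∫ t in T..τ, P t * (√(τ - t))⁻¹ := by
        refine intervalIntegral.integral_congr fun t ht => ?_
        rw [uIcc_of_le hτ.1] at ht
        show _ * _ = _ * _
        rw [hP t ⟨ht.1, ht.2.trans hτ.2⟩]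
      rw [← h3, h2]
      refine intervalIntegral.integral_congr fun s _ => ?_
      show ∫ x in (0:ℝ)..1, om x * (U s * k (s + (τ - s) * x) s) =
        (∫ x in (0:ℝ)..1, om x * k (s + (τ - s) * x) s) * U s
      rw [← intervalIntegral.integral_mul_const]
      refine intervalIntegral.integral_congr fun x _ => ?_
      show _ * (_ * _) = _ * _ * _
      ring
    have h2 := hG τ hτ
    have hw := inv_sqrt_int T τ τ
    have h3 : ∫ t in T..τ, δ t * (√(τ - t))⁻¹ =
        (∫ t in T..τ, P t * (√(τ - t))⁻¹) - ∫ t in T..τ, g t * (√(τ - t))⁻¹ := by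
      rw [← intervalIntegral.integral_sub (hw.continuousOn_mul hPs.continuous.continuousOn)
        (hw.continuousOn_mul hg.continuous.continuousOn)]
      refine intervalIntegral.integral_congr fun t _ => ?_
      show (_ - _) * _ = _
      ring
    rw [h3, h1, h2, sub_self]
  have hA2 : ∀ σ ∈ Icc T T₁, ∫ t in T..σ, δ t = 0 := by
    intro σ hσ
    have h1 := abelSwap (Φ := fun _ s => δ s) (hδs.continuous.comp continuous_snd) hσ.1
    have h2 : ∫ t in T..σ, (∫ s in T..t, δ s * (√(t - s))⁻¹) * (√(σ - t))⁻¹ = 0 := by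
      rw [intervalIntegral.integral_congr (g := fun _ => 0), intervalIntegral.integral_zero]
      intro t ht
      rw [uIcc_of_le hσ.1] at ht
      show _ * _ = _
      rw [hA1 t ⟨ht.1, ht.2.trans hσ.2⟩, zero_mul]
    rw [h2] at h1
    simp only [intervalIntegral.integral_mul_const] at h1
    rw [intervalIntegral.integral_const_mul] at h1
    exact (mul_eq_zero.1 h1.symm).resolve_left hc0.ne'
  have hδ0 : ∀ t ∈ Icc T T₁, δ t = 0 := by
    have h1 : Ioo T T₁ ⊆ {t | δ t = 0} := by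
      intro t ht
      have h2 : HasDerivAt (fun σ => ∫ s in T..σ, δ s) (δ t) t :=
        intervalIntegral.integral_hasDerivAt_right (hδs.continuous.intervalIntegrable _ _)
          (hδs.continuous.stronglyMeasurableAtFilter _ _) hδs.continuous.continuousAt
      have h3 : (fun σ => ∫ s in T..σ, δ s) =ᶠ[𝓝 t] fun _ => 0 := by
        filter_upwards [Ioo_mem_nhds ht.1 ht.2] with σ hσ
        exact hA2 σ ⟨hσ.1.le, hσ.2.le⟩
      exact (h2.congr_of_eventuallyEq h3.symm).unique (hasDerivAt_const t 0)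
    have h2 : IsClosed {t | δ t = 0} := isClosed_eq hδs.continuous continuous_const
    have h3 := closure_minimal h1 h2
    rw [closure_Ioo hT.ne] at h3
    exact fun t ht => h3 ht
  intro t ht
  rw [← hP t ht]
  have := hδ0 t ht
  simp only [hδ] at this
  linarith

end Q71.MO
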