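import Pool.Agent.Q71.MO.Step

/-! A radial smooth function on the disc with vanishing integrals over all circles
`C (z, α (1 - |z|))`. -/

set_option autoImplicit false

open MeasureTheory Set Filter Topology
open scoped ContDiff

namespace Q71.MO

/-- The circle integral of a radial function. -/
theorem circle_radial {W : ℝ → ℝ} (hW : Continuous W) (z : ℂ) {ρ : ℝ}
    (hE : ∫ θ in (0:ℝ)..Real.pi, W (‖z‖ ^ 2 + ρ ^ 2 + 2 * ‖z‖ * ρ * Real.cos θ) * Real.cos θ = 0) :
    ∮ ζ in C(z, ρ), ((W (‖ζ‖ ^ 2) : ℝ) : ℂ) = 0 := by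
  set φ := Complex.arg z with hφ
  set r := ‖z‖ with hr
  have hz : z = r * Complex.exp (φ * Complex.I) := (Complex.norm_mul_exp_arg_mul_I z).symm
  set G : ℝ → ℂ := fun θ => Complex.exp (θ * Complex.I) *
    ((W (r ^ 2 + ρ ^ 2 + 2 * r * ρ * Real.cos θ) : ℝ) : ℂ) with hG
  have hGc : Continuous G := by
    refine Continuous.mul (by fun_prop) (Complex.continuous_ofReal.comp (hW.comp ?_))
    fun_prop
  have hnorm : ∀ θ : ℝ, ‖circleMap z ρ θ‖ ^ 2 = r ^ 2 + ρ ^ 2 + 2 * r * ρ * Real.cos (θ - φ) := by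
    intro θ
    have h1 : circleMap z ρ θ = Complex.exp (φ * Complex.I) *
        (r + ρ * Complex.exp (((θ - φ : ℝ) : ℂ) * Complex.I)) := by
      rw [circleMap]
      conv_lhs => rw [hz]
      have : Complex.exp (θ * Complex.I) = Complex.exp (φ * Complex.I) *
          Complex.exp (((θ - φ : ℝ) : ℂ) * Complex.I) := by
        rw [← Complex.exp_add]
        congr 1
        push_cast
        ring
      rw [this]
      ring
    rw [h1, norm_mul, Complex.norm_exp_ofReal_mul_I, one_mul, ← Complex.normSq_eq_norm_sq,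
      Complex.exp_mul_I, Complex.normSq_apply]
    have h2 := Real.sin_sq_add_cos_sq (θ - φ)
    rw [← Complex.ofReal_cos, ← Complex.ofReal_sin]
    simp only [Complex.add_re, Complex.ofReal_re, Complex.mul_re, Complex.I_re, mul_zero,
      Complex.ofReal_im, Complex.I_im, mul_one, sub_self, add_zero, Complex.add_im, Complex.mul_im,
      zero_add, zero_mul, sub_zero]
    linear_combination ρ ^ 2 * h2
  have h1 : ∮ ζ in C(z, ρ), ((W (‖ζ‖ ^ 2) : ℝ) : ℂ) =
      ∫ θ in (0:ℝ)..2 * Real.pi, (ρ * Complex.I * Complex.exp (φ * Complex.I)) * G (θ - φ) := by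
    rw [circleIntegral]
    refine intervalIntegral.integral_congr fun θ _ => ?_
    show deriv (circleMap z ρ) θ • ((W (‖circleMap z ρ θ‖ ^ 2) : ℝ) : ℂ) = _
    rw [deriv_circleMap, hnorm, smul_eq_mul, circleMap_zero]
    simp only [hG]
    have : Complex.exp (θ * Complex.I) = Complex.exp (φ * Complex.I) *
          Complex.exp (((θ - φ : ℝ) : ℂ) * Complex.I) := by
      rw [← Complex.exp_add]
      congr 1
      push_cast
      ring
    rw [this]
    ring
  have hper : Function.Periodic G (2 * Real.pi) := by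
    intro θ
    simp only [hG]
    rw [Real.cos_add_two_pi]
    congr 1
    have := Complex.exp_periodic (θ * Complex.I)
    rw [← this]
    congr 1
    push_cast
    ring
  have h2 : ∫ θ in (0:ℝ)..2 * Real.pi, G (θ - φ) = ∫ θ in (-Real.pi)..Real.pi, G θ := by
    rw [intervalIntegral.integral_comp_sub_right G φ]
    have := hper.intervalIntegral_add_eq (0 - φ) (-Real.pi)
    rw [show 0 - φ + 2 * Real.pi = 2 * Real.pi - φ by ring,
      show -Real.pi + 2 * Real.pi = Real.pi by ring] at this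
    exact this
  have h3 : ∫ θ in (-Real.pi)..Real.pi, G θ = ∫ θ in (0:ℝ)..Real.pi, (G (-θ) + G θ) := by
    have hneg : IntervalIntegrable (fun θ => G (-θ)) volume 0 Real.pi :=
      (hGc.comp continuous_neg).intervalIntegrable _ _
    rw [← intervalIntegral.integral_add_adjacent_intervals (b := 0)
      (hGc.intervalIntegrable _ _) (hGc.intervalIntegrable _ _),
      intervalIntegral.integral_add hneg (hGc.intervalIntegrable _ _)]
    congr 1
    rw [intervalIntegral.integral_comp_neg]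
    simp
  have h4 : ∫ θ in (0:ℝ)..Real.pi, (G (-θ) + G θ) = ∫ θ in (0:ℝ)..Real.pi,
      ((2 * (W (r ^ 2 + ρ ^ 2 + 2 * r * ρ * Real.cos θ) * Real.cos θ) : ℝ) : ℂ) := by
    refine intervalIntegral.integral_congr fun θ _ => ?_
    simp only [hG]
    rw [Real.cos_neg, Complex.exp_mul_I, Complex.exp_mul_I]
    push_cast
    rw [Complex.cos_neg, Complex.sin_neg]
    ring
  rw [h1, intervalIntegral.integral_const_mul, h2, h3, h4, intervalIntegral.integral_ofReal,
    intervalIntegral.integral_const_mul, hE]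
  simp

/-- Gluing a sequence of functions that agree on longer and longer half-lines. -/
theorem glue {T : ℕ → ℝ} (hT : Monotone T) {W : ℕ → ℝ → ℝ}
    (hW : ∀ n, ∀ s ≤ T n, W (n + 1) s = W n s) :
    ∃ V : ℝ → ℝ, ∀ n, ∀ s ≤ T n, V s = W n s := by
  classical
  have h1 : ∀ n m, n ≤ m → ∀ s ≤ T n, W m s = W n s := by
    intro n m hnm
    induction m, hnm using Nat.le_induction with
    | base => exact fun s _ => rfl
    | succ m hm ih => exact fun s hs => (hW m s (hs.trans (hT hm))).trans (ih s hs)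
  refine ⟨fun s => if h : ∃ n, s ≤ T n then W (Nat.find h) s else 0, fun n s hs => ?_⟩
  have h : ∃ n, s ≤ T n := ⟨n, hs⟩
  show (if h : ∃ n, s ≤ T n then W (Nat.find h) s else 0) = _
  rw [dif_pos h]
  exact (h1 _ _ (Nat.find_min' h hs) s (Nat.find_spec h)).symm

theorem EE_eq {w H : ℝ → ℝ} {r ρ : ℝ} (h : w ((r + ρ) ^ 2) = 2 * r * ρ) :
    EE w H ((r + ρ) ^ 2) = ∫ θ in (0:ℝ)..Real.pi,
      H (r ^ 2 + ρ ^ 2 + 2 * r * ρ * Real.cos θ) * Real.cos θ := by
  unfold EE
  rw [h]
  refine intervalIntegral.integral_congr fun θ _ => ?_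
  show H _ * _ = H _ * _
  rw [show (r + ρ) ^ 2 - 2 * r * ρ + 2 * r * ρ * Real.cos θ =
    r ^ 2 + ρ ^ 2 + 2 * r * ρ * Real.cos θ by ring]

/-- The radial profile. -/
theorem profile {α : ℝ} (h0 : 0 < α) (h1 : α < 1) :
    ∃ (T : ℕ → ℝ) (W : ℕ → ℝ → ℝ) (V : ℝ → ℝ), Monotone T ∧ (∀ s < 1, ∃ n, s < T n) ∧
      α ^ 2 < T 0 ∧ (∀ n, ContDiff ℝ ∞ (W n)) ∧ (∀ n, ∀ s ≤ T n, V s = W n s) ∧
      W 0 0 = 1 ∧ (∀ s, α ^ 2 / 4 ≤ s → W 0 s = 0) ∧
      ∀ n, ∀ r, 0 ≤ r → (r + α * (1 - r)) ^ 2 ≤ T n →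
        ∫ θ in (0:ℝ)..Real.pi, W n (r ^ 2 + (α * (1 - r)) ^ 2 +
          2 * r * (α * (1 - r)) * Real.cos θ) * Real.cos θ = 0 := by
  have hA : 0 < α ^ 2 := by positivity
  have h1' : 0 < 1 - α := by linarith
  obtain ⟨φ, hφs, -, hφ⟩ := exists_sqrt hA
  set R : ℝ → ℝ := fun t => (φ t - α) / (1 - α) with hR
  set w : ℝ → ℝ := fun t => 2 * R t * (α * (1 - R t)) with hw
  have hRs : ContDiff ℝ ∞ R := (hφs.sub contDiff_const).div_const _
  have hws : ContDiff ℝ ∞ w :=
    (contDiff_const.mul hRs).mul (contDiff_const.mul (contDiff_const.sub hRs))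
  -- the sequence `e n`
  set lam : ℝ := (1 + α) / (1 - α) with hlam
  have hlam1 : 1 < lam := by
    rw [hlam, one_lt_div h1']
    linarith
  have hlamα : lam * (1 - α) = 1 + α := div_mul_cancel₀ _ h1'.ne'
  set μ : ℝ := (1 + lam) / 2 with hμ
  have hμ1 : 1 < μ := by linarith
  have hμl : μ < lam := by linarith
  have hμ0 : 0 < μ := by linarith
  set e0 : ℝ := (1 + α / 2) / lam with he0
  have hlam0 : 0 < lam := by linarith
  have he0p : 0 < e0 := by positivity
  have hle0 : lam * e0 = 1 + α / 2 := mul_div_cancel₀ _ hlam0.ne'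
  have he01 : e0 < 1 - α := by
    have : lam * e0 < lam * (1 - α) := by rw [hle0, hlamα]; linarith
    exact lt_of_mul_lt_mul_left this hlam0.le
  set e : ℕ → ℝ := fun n => e0 / μ ^ n with he
  have hep : ∀ n, 0 < e n := fun n => by positivity
  have hes : ∀ n, e (n + 1) * μ = e n := fun n => by
    simp only [he, pow_succ]
    field_simp
  have helt : ∀ n, e (n + 1) < e n := fun n => by nlinarith [hes n, hep (n + 1)]
  have hele : ∀ n, e n ≤ e0 := by
    intro n
    induction n with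
    | zero => simp [he]
    | succ n ih => exact (helt n).le.trans ih
  have hesm : ∀ ε > 0, ∃ n, e n < ε := by
    intro ε hε
    obtain ⟨n, hn⟩ := pow_unbounded_of_one_lt (e0 / ε) hμ1
    refine ⟨n, ?_⟩
    simp only [he]
    rw [div_lt_iff₀ (by positivity)]
    rw [div_lt_iff₀ hε] at hn
    linarith
  set T : ℕ → ℝ := fun n => (1 - e n) ^ 2 with hT
  have hTlt : ∀ n, T n < T (n + 1) := fun n => by
    have h2 := helt n
    have h3 := hele n
    have h4 := hep (n + 1)
    simp only [hT]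
    nlinarith
  have hTA : ∀ n, α ^ 2 < T n := fun n => by
    have h3 := hele n
    simp only [hT]
    nlinarith
  have hT1 : ∀ n, T n < 1 := fun n => by
    have h3 := hele n
    have h4 := hep n
    simp only [hT]
    nlinarith
  -- geometry: `t = (1 - x)^2`
  have hgeo : ∀ x, 0 < x → x < 1 - α → w ((1 - x) ^ 2) = 2 * (1 - x / (1 - α)) * (α * (x / (1 - α))) ∧
      (1 - x) ^ 2 - 2 * w ((1 - x) ^ 2) = (1 - lam * x) ^ 2 := by
    intro x hx hx1
    have h2 : φ ((1 - x) ^ 2) = 1 - x := by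
      rw [hφ _ (by nlinarith), Real.sqrt_sq (by linarith)]
    have h3 : R ((1 - x) ^ 2) = 1 - x / (1 - α) := by
      simp only [hR]
      rw [h2]
      field_simp
      ring
    have h4 : w ((1 - x) ^ 2) = 2 * (1 - x / (1 - α)) * (α * (x / (1 - α))) := by
      simp only [hw]
      rw [h3]
      ring
    refine ⟨h4, ?_⟩
    rw [h4, hlam]
    field_simp
    ring
  have hx : ∀ t, α ^ 2 < t → t < 1 → ∃ x, 0 < x ∧ x < 1 - α ∧ t = (1 - x) ^ 2 := by
    intro t ht ht1
    have h2 : 0 ≤ t := hA.le.trans ht.le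
    refine ⟨1 - √t, ?_, ?_, ?_⟩
    · have : √t < 1 := by rw [Real.sqrt_lt' one_pos]; linarith
      linarith
    · have : α < √t := by rw [Real.lt_sqrt h0.le]; exact ht
      linarith
    · rw [sub_sub_cancel, Real.sq_sqrt h2]
  have hwp : ∀ t, α ^ 2 < t → t < 1 → 0 < w t := by
    intro t ht ht1
    obtain ⟨x, hx0, hx1, rfl⟩ := hx t ht ht1
    rw [(hgeo x hx0 hx1).1]
    have h2 : x / (1 - α) < 1 := by rw [div_lt_one h1']; exact hx1
    have h3 : 0 < x / (1 - α) := by positivity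
    have h4 : 0 < 1 - x / (1 - α) := by linarith
    positivity
  have hstepa : ∀ n, ∀ t ∈ Icc (T n) (T (n + 1)), t - 2 * w t < T n := by
    intro n t ht
    obtain ⟨x, hx0, hx1, rfl⟩ := hx t ((hTA n).trans_le ht.1) (ht.2.trans_lt (hT1 (n + 1)))
    rw [(hgeo x hx0 hx1).2]
    have h2 : x ≤ e n := by
      by_contra h
      have := ht.1
      simp only [hT] at this
      have h3 := hele n
      nlinarith [not_le.1 h]
    have h3 : e (n + 1) ≤ x := by
      by_contra h
      have := ht.2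
      simp only [hT] at this
      have h3 := hele (n + 1)
      nlinarith [not_le.1 h]
    simp only [hT]
    have h4 := hele n
    refine sq_lt_sq' ?_ ?_
    · have h5 : lam * x ≤ lam * e n := by gcongr
      have h6 : (lam + 1) * (1 - α) = 2 := by linarith
      have h7 : (lam + 1) * e n < (lam + 1) * (1 - α) := by
        have : e n < 1 - α := by linarith
        gcongr
      linarith
    · have h5 : lam * e (n + 1) ≤ lam * x := by gcongr
      have h6 : μ * e (n + 1) < lam * e (n + 1) := by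
        have := hep (n + 1)
        gcongr
      have h7 := hes n
      linarith
  have hwr : ∀ r, 0 ≤ r → r < 1 → α ^ 2 ≤ (r + α * (1 - r)) ^ 2 →
      w ((r + α * (1 - r)) ^ 2) = 2 * r * (α * (1 - r)) := by
    intro r hr hr1 htA
    have h3 : φ ((r + α * (1 - r)) ^ 2) = r + α * (1 - r) := by
      rw [hφ _ htA, Real.sqrt_sq (by nlinarith)]
    have h4 : R ((r + α * (1 - r)) ^ 2) = r := by
      show (φ ((r + α * (1 - r)) ^ 2) - α) / (1 - α) = r
      rw [h3]
      field_simp
      ring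
    show 2 * R ((r + α * (1 - r)) ^ 2) * (α * (1 - R ((r + α * (1 - r)) ^ 2))) = _
    rw [h4]
  clear_value T w lam μ R
  -- the starting profile
  set κ : ℝ := α ^ 2 / 4 with hκ
  have hκ0 : 0 < κ := by positivity
  set H0 : ℝ → ℝ := fun s => 1 - Real.smoothTransition (s / κ) with hH0
  have hH0s : ContDiff ℝ ∞ H0 :=
    contDiff_const.sub (Real.smoothTransition.contDiff.comp (contDiff_id.div_const _))
  have hH00 : ∀ s, κ ≤ s → H0 s = 0 := fun s hs => by
    simp only [hH0]
    rw [Real.smoothTransition.one_of_one_le, sub_self]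
    rw [le_div_iff₀ hκ0]
    linarith
  have hH01 : H0 0 = 1 := by
    simp only [hH0]
    rw [Real.smoothTransition.zero_of_nonpos (by simp), sub_zero]
  have hE0 : ∀ t ∈ Ioc (α ^ 2) (T 0), EE w H0 t = 0 := by
    intro t ht
    have htw := hwp t ht.1 (ht.2.trans_lt (hT1 0))
    obtain ⟨x, hx0, hx1, rfl⟩ := hx t ht.1 (ht.2.trans_lt (hT1 0))
    have h2 : e 0 ≤ x := by
      by_contra h
      have := ht.2
      simp only [hT] at this
      have h3 := hele 0
      nlinarith [not_le.1 h]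
    have h3 : e 0 = e0 := by simp [he]
    have h4 : κ ≤ (1 - x) ^ 2 - 2 * w ((1 - x) ^ 2) := by
      rw [(hgeo x hx0 hx1).2]
      have h5 : lam * e0 ≤ lam * x := by rw [← h3]; gcongr
      rw [hκ]
      nlinarith
    unfold EE
    rw [intervalIntegral.integral_congr (g := fun _ => 0), intervalIntegral.integral_zero]
    intro θ _
    show _ * _ = _
    rw [hH00 _ (by nlinarith [Real.neg_one_le_cos θ]), zero_mul]
  -- the recursion
  have hrec : ∀ n, ∀ H : {H : ℝ → ℝ // ContDiff ℝ ∞ H ∧ ∀ t ∈ Ioc (α ^ 2) (T n), EE w H t = 0},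
      ∃ W : {H : ℝ → ℝ // ContDiff ℝ ∞ H ∧ ∀ t ∈ Ioc (α ^ 2) (T (n + 1)), EE w H t = 0},
        ∀ s ≤ T n, W.1 s = H.1 s := by
    rintro n ⟨H, hHs, hHE⟩
    obtain ⟨W, hWs, hWH, hWE⟩ := step hws (hTA n) (hTlt n)
      (fun t ht => hwp t ht.1 (ht.2.trans_lt (hT1 (n + 1)))) (hstepa n) hHs hHE
    exact ⟨⟨W, hWs, hWE⟩, hWH⟩
  choose nx hnx using hrec
  let Q : ∀ n, {H : ℝ → ℝ // ContDiff ℝ ∞ H ∧ ∀ t ∈ Ioc (α ^ 2) (T n), EE w H t = 0} :=
    fun n => Nat.rec ⟨H0, hH0s, hE0⟩ (fun n H => nx n H) n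
  have hQ : ∀ n, ∀ s ≤ T n, (Q (n + 1)).1 s = (Q n).1 s := fun n s hs => hnx n (Q n) s hs
  have hTm : Monotone T := monotone_nat_of_le_succ fun n => (hTlt n).le
  obtain ⟨V, hV⟩ := glue hTm (W := fun n => (Q n).1) hQ
  refine ⟨T, fun n => (Q n).1, V, hTm, ?_, hTA 0, fun n => (Q n).2.1, hV, hH01, hH00, ?_⟩
  · intro s hs
    rcases le_or_gt s 0 with h | h
    · exact ⟨0, h.trans_lt (hA.trans (hTA 0))⟩
    · have h2 : √s < 1 := by rw [Real.sqrt_lt' one_pos]; linarith
      obtain ⟨n, hn⟩ := hesm (1 - √s) (by linarith)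
      refine ⟨n, ?_⟩
      simp only [hT]
      have h3 : √s ^ 2 = s := Real.sq_sqrt h.le
      have h4 := Real.sqrt_nonneg s
      nlinarith
  · intro n r hr hrT
    rcases hr.eq_or_lt with h | h
    · subst h
      simp
    · have hr1 : r < 1 := by
        by_contra hc
        have h2 := hT1 n
        have h3 : 1 ≤ r := not_lt.1 hc
        nlinarith [mul_nonneg h1'.le (sub_nonneg.2 h3)]
      have htA : α ^ 2 < (r + α * (1 - r)) ^ 2 := by
        have : 0 < (1 - α) * r := by positivity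
        nlinarith
      have h2 := (Q n).2.2 _ ⟨htA, hrT⟩
      rw [EE_eq (hwr r h.le hr1 htA.le)] at h2
      exact h2

end Q71.MO
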