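import Pool.Agent.Q71.MO.Abel

/-! One step of the construction of the radial function. -/

set_option autoImplicit false

open MeasureTheory Set Filter Topology
open scoped ContDiff

namespace Q71.MO

/-- A positive smooth function equal to the identity on `[c, ∞)`. -/
theorem exists_pos {c : ℝ} (hc : 0 < c) : ∃ ψ : ℝ → ℝ, ContDiff ℝ ∞ ψ ∧ (∀ x, 0 < ψ x) ∧
    ∀ x, c ≤ x → ψ x = x := by
  refine ⟨fun x => c / 2 + (x - c / 2) * Real.smoothTransition (2 * x / c - 1), ?_, ?_, ?_⟩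
  · refine contDiff_const.add ((contDiff_id.sub contDiff_const).mul
      (Real.smoothTransition.contDiff.comp ?_))
    exact ((contDiff_const.mul contDiff_id).div_const c).sub contDiff_const
  · intro x
    show 0 < c / 2 + (x - c / 2) * Real.smoothTransition (2 * x / c - 1)
    rcases le_total x (c / 2) with h | h
    · rw [Real.smoothTransition.zero_of_nonpos]
      · simpa using half_pos hc
      · rw [sub_nonpos, div_le_one hc]
        linarith
    · have := Real.smoothTransition.nonneg (2 * x / c - 1)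
      have h2 : 0 ≤ (x - c / 2) * Real.smoothTransition (2 * x / c - 1) :=
        mul_nonneg (by linarith) this
      linarith [half_pos hc]
  · intro x hx
    show c / 2 + (x - c / 2) * Real.smoothTransition (2 * x / c - 1) = x
    rw [Real.smoothTransition.one_of_one_le]
    · ring
    · rw [le_sub_iff_add_le, le_div_iff₀ hc]
      linarith

/-- A positive smooth function equal to the square root on `[c, ∞)`. -/
theorem exists_sqrt {c : ℝ} (hc : 0 < c) : ∃ φ : ℝ → ℝ, ContDiff ℝ ∞ φ ∧ (∀ x, 0 < φ x) ∧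
    ∀ x, c ≤ x → φ x = √x := by
  obtain ⟨ψ, h1, h2, h3⟩ := exists_pos hc
  refine ⟨fun x => √(ψ x), h1.sqrt fun x => (h2 x).ne', fun x => Real.sqrt_pos.2 (h2 x), ?_⟩
  intro x hx
  show √(ψ x) = _
  rw [h3 x hx]

/-- the circle condition for the radial function `H (|z|²)` -/
noncomputable def EE (w H : ℝ → ℝ) (t : ℝ) : ℝ :=
  ∫ θ in (0:ℝ)..Real.pi, H (t - w t + w t * Real.cos θ) * Real.cos θ

theorem EE_smooth {w H : ℝ → ℝ} (hw : ContDiff ℝ ∞ w) (hH : ContDiff ℝ ∞ H) :
    ContDiff ℝ ∞ (EE w H) := by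
  have h := contDiff_param Real.pi_pos.le (w := Real.cos)
    (Real.continuous_cos.intervalIntegrable _ _)
    (Ψ := fun t θ => H (t - w t + w t * Real.cos θ))
    (hH.comp ((contDiff_fst.sub (hw.comp contDiff_fst)).add ((hw.comp contDiff_fst).mul
      (Real.contDiff_cos.comp contDiff_snd))))
  have h2 : EE w H = fun t => ∫ θ in (0:ℝ)..Real.pi,
      Real.cos θ * H (t - w t + w t * Real.cos θ) := by
    funext t
    refine intervalIntegral.integral_congr fun θ _ => ?_
    show _ * _ = _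
    rw [mul_comm]
  rw [h2]
  exact h

theorem EE_add {w H U : ℝ → ℝ} (hH : Continuous H) (hU : Continuous U) (t : ℝ) :
    EE w (fun s => H s + U s) t = EE w H t + EE w U t := by
  unfold EE
  rw [← intervalIntegral.integral_add (Continuous.intervalIntegrable (by fun_prop) _ _)
    (Continuous.intervalIntegrable (by fun_prop) _ _)]
  refine intervalIntegral.integral_congr fun θ _ => ?_
  show (_ + _) * _ = _
  ring

theorem EE_zero {w U : ℝ → ℝ} {t T : ℝ} (hU : ∀ s ≤ T, U s = 0) (hw : 0 ≤ w t) (ht : t ≤ T) :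
    EE w U t = 0 := by
  unfold EE
  rw [intervalIntegral.integral_congr (g := fun _ => 0), intervalIntegral.integral_zero]
  intro θ _
  show _ * _ = _
  rw [hU _ (by nlinarith [Real.cos_le_one θ]), zero_mul]

theorem EE_formula {w U : ℝ → ℝ} {t T : ℝ} (hU : ∀ s ≤ T, U s = 0) (hw : 0 < w t)
    (hT : T ≤ t) (ha : t - 2 * w t < T) :
    w t * EE w U t = ∫ s in T..t, U s * ((s - t + w t) * (√(s - (t - 2 * w t)))⁻¹) *
      (√(t - s))⁻¹ := by
  have h1 : EE w U t = ∫ x in (-1:ℝ)..1, (U (t - w t + w t * x) * x) * √(1 - x ^ 2)⁻¹ := by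
    unfold EE
    rw [← Polynomial.Chebyshev.integral_measureT,
      Polynomial.Chebyshev.integral_measureT_eq_integral_cos]
  have h2 := intervalIntegral.smul_integral_comp_add_mul (a := -1) (b := 1)
    (fun s => U s * ((s - t + w t) * (√(s - (t - 2 * w t)))⁻¹) * (√(t - s))⁻¹) (w t) (t - w t)
  rw [show t - w t + w t * -1 = t - 2 * w t by ring, show t - w t + w t * 1 = t by ring] at h2
  have h3 : ∫ s in T..t, U s * ((s - t + w t) * (√(s - (t - 2 * w t)))⁻¹) * (√(t - s))⁻¹ =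
      ∫ s in (t - 2 * w t)..t, U s * ((s - t + w t) * (√(s - (t - 2 * w t)))⁻¹) *
        (√(t - s))⁻¹ := by
    rw [intervalIntegral.integral_of_le hT, intervalIntegral.integral_of_le (by linarith)]
    refine (setIntegral_eq_of_subset_of_forall_sdiff_eq_zero measurableSet_Ioc
      (Ioc_subset_Ioc_left ha.le) fun s hs => ?_).symm
    have : s ≤ T := by
      by_contra h
      exact hs.2 ⟨not_le.1 h, hs.1.2⟩
    rw [hU s this, zero_mul, zero_mul]
  rw [h3, ← h2, smul_eq_mul, h1]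
  congr 1
  refine intervalIntegral.integral_congr fun x hx => ?_
  rw [uIcc_of_le (by norm_num)] at hx
  show _ * _ * _ = _ * (_ * _) * _
  rw [show t - w t + w t * x - t + w t = w t * x by ring,
    show t - w t + w t * x - (t - 2 * w t) = w t * (1 + x) by ring,
    show t - (t - w t + w t * x) = w t * (1 - x) by ring, Real.sqrt_mul hw.le,
    Real.sqrt_mul hw.le, show 1 - x ^ 2 = (1 + x) * (1 - x) by ring, Real.sqrt_inv,
    Real.sqrt_mul (by linarith [hx.1]), mul_inv, mul_inv, mul_inv]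
  have h4 : √(w t) * √(w t) = w t := Real.mul_self_sqrt hw.le
  have h5 : √(w t) ≠ 0 := (Real.sqrt_pos.2 hw).ne'
  have h6 : w t * ((√(w t))⁻¹ * (√(w t))⁻¹) = 1 := by
    rw [← h4, h4]
    field_simp
    rw [sq, h4]
  calc U (t - w t + w t * x) * x * ((√(1 + x))⁻¹ * (√(1 - x))⁻¹)
      = U (t - w t + w t * x) * x * ((√(1 + x))⁻¹ * (√(1 - x))⁻¹) *
        (w t * ((√(w t))⁻¹ * (√(w t))⁻¹)) := by rw [h6, mul_one]
    _ = _ := by ring

/-- One step: the circle condition can be pushed from `(B, T]` to `(B, T₁]`. -/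
theorem step {w : ℝ → ℝ} (hw : ContDiff ℝ ∞ w) {B T T₁ : ℝ} (hB : B < T) (hT : T < T₁)
    (hwp : ∀ t ∈ Ioc B T₁, 0 < w t) (ha : ∀ t ∈ Icc T T₁, t - 2 * w t < T)
    {H : ℝ → ℝ} (hH : ContDiff ℝ ∞ H) (hE : ∀ t ∈ Ioc B T, EE w H t = 0) :
    ∃ W : ℝ → ℝ, ContDiff ℝ ∞ W ∧ (∀ s ≤ T, W s = H s) ∧ ∀ t ∈ Ioc B T₁, EE w W t = 0 := by
  obtain ⟨w0, hw0, hw1⟩ : ∃ w0, 0 < w0 ∧ ∀ t ∈ Icc T T₁, w0 ≤ w t := by
    obtain ⟨x, hx, hmin⟩ := isCompact_Icc.exists_isMinOn (nonempty_Icc.2 hT.le)
      hw.continuous.continuousOn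
    exact ⟨w x, hwp x ⟨hB.trans_le hx.1, hx.2⟩, fun t ht => hmin ht⟩
  obtain ⟨c0, hc0, hc1⟩ : ∃ c0, 0 < c0 ∧ ∀ t ∈ Icc T T₁, c0 ≤ T - (t - 2 * w t) := by
    obtain ⟨x, hx, hmin⟩ := isCompact_Icc.exists_isMinOn (nonempty_Icc.2 hT.le)
      (f := fun t => T - (t - 2 * w t))
      (continuous_const.sub (continuous_id.sub (continuous_const.mul hw.continuous))).continuousOn
    exact ⟨T - (x - 2 * w x), by linarith [ha x hx], fun t ht => hmin ht⟩
  obtain ⟨ψ, hψs, hψp, hψ⟩ := exists_pos hw0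
  obtain ⟨φ, hφs, hφp, hφ⟩ := exists_sqrt hc0
  set χ : ℝ → ℝ := fun t => Real.smoothTransition ((t - (B + T) / 2) / (T - (B + T) / 2)) with hχ
  have hd : 0 < T - (B + T) / 2 := by linarith
  have hχs : ContDiff ℝ ∞ χ :=
    Real.smoothTransition.contDiff.comp ((contDiff_id.sub contDiff_const).div_const _)
  have hχ1 : ∀ t, T ≤ t → χ t = 1 := fun t ht => by
    simp only [hχ]
    rw [Real.smoothTransition.one_of_one_le]
    rw [le_div_iff₀ hd]
    linarith
  have hχ0 : ∀ t, t ≤ (B + T) / 2 → χ t = 0 := fun t ht => by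
    simp only [hχ]
    rw [Real.smoothTransition.zero_of_nonpos]
    exact div_nonpos_of_nonpos_of_nonneg (by linarith) hd.le
  obtain ⟨U, hUs, hU0, hU⟩ := abel_first
    (k := fun t s => (s - t + ψ (w t)) * (φ (s - (t - 2 * w t)))⁻¹)
    (((contDiff_snd.sub contDiff_fst).add (hψs.comp (hw.comp contDiff_fst))).mul
      ((hφs.comp (contDiff_snd.sub (contDiff_fst.sub
        (contDiff_const.mul (hw.comp contDiff_fst))))).inv fun p => (hφp _).ne'))
    (fun t => by
      show 0 < (t - t + ψ (w t)) * _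
      rw [sub_self, zero_add]
      exact mul_pos (hψp _) (inv_pos.2 (hφp _)))
    (g := fun t => -(χ t * (w t * EE w H t)))
    ((hχs.mul (hw.mul (EE_smooth hw hH))).neg) hT
    (fun t ht => by
      show -(χ t * (w t * EE w H t)) = 0
      rcases le_or_gt t ((B + T) / 2) with h | h
      · rw [hχ0 t h, zero_mul, neg_zero]
      · rw [hE t ⟨by linarith, ht⟩, mul_zero, mul_zero, neg_zero])
  refine ⟨fun s => H s + U s, hH.add hUs, fun s hs => by
    show H s + U s = H s
    rw [hU0 s hs, add_zero], ?_⟩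
  intro t ht
  rw [EE_add hH.continuous hUs.continuous]
  rcases le_or_gt t T with h | h
  · rw [hE t ⟨ht.1, h⟩, EE_zero hU0 (hwp t ht).le h, add_zero]
  · have htI : t ∈ Icc T T₁ := ⟨h.le, ht.2⟩
    have h1 := hU t htI
    rw [hχ1 t h.le, one_mul] at h1
    have h2 := EE_formula hU0 (hwp t ht) h.le (ha t htI)
    have h3 : ∫ s in T..t, U s * ((s - t + ψ (w t)) * (φ (s - (t - 2 * w t)))⁻¹) * (√(t - s))⁻¹ =
        ∫ s in T..t, U s * ((s - t + w t) * (√(s - (t - 2 * w t)))⁻¹) * (√(t - s))⁻¹ := by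
      refine intervalIntegral.integral_congr fun s hs => ?_
      rw [uIcc_of_le h.le] at hs
      show _ * (_ * _) * _ = _ * (_ * _) * _
      rw [hψ _ (hw1 t htI), hφ _ (by linarith [hc1 t htI, hs.1])]
    rw [h3, ← h2] at h1
    have h4 : w t ≠ 0 := (hwp t ht).ne'
    have h5 : w t * (EE w H t + EE w U t) = 0 := by rw [mul_add, h1]; ring
    exact (mul_eq_zero.1 h5).resolve_left h4

end Q71.MO
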