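import Mathlib

/-! Fubini on a triangle, parametric integrals with weights, the Abel kernel. -/

set_option autoImplicit false

open MeasureTheory Set Filter Topology
open scoped ContDiff

namespace Q71.MO

/-- Fubini on the triangle. -/
theorem swap {a b : ℝ} (hab : a ≤ b) {F : ℝ → ℝ → ℝ}
    (hF : Integrable (Function.uncurry F)
      ((volume.restrict (Ioc a b)).prod (volume.restrict (Ioc a b)))) :
    ∫ t in a..b, ∫ s in a..t, F t s = ∫ s in a..b, ∫ t in s..b, F t s := by
  set μ := volume.restrict (Ioc a b) with hμ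
  set G : ℝ → ℝ → ℝ := fun t s => if s < t then F t s else 0 with hG
  have hm : MeasurableSet {p : ℝ × ℝ | p.2 < p.1} :=
    (isOpen_lt continuous_snd continuous_fst).measurableSet
  have hGi : Integrable (Function.uncurry G) (μ.prod μ) := by
    have h := hF.indicator hm
    refine h.congr (Eventually.of_forall fun p => ?_)
    simp only [indicator, Set.mem_ofPred_eq, hG, Function.uncurry]
  have h1 : ∫ t in a..b, ∫ s in a..t, F t s = ∫ t, ∫ s, G t s ∂μ ∂μ := by
    rw [intervalIntegral.integral_of_le hab]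
    refine setIntegral_congr_fun measurableSet_Ioc fun t ht => ?_
    show ∫ s in a..t, F t s = ∫ s, G t s ∂μ
    rw [intervalIntegral.integral_of_le ht.1.le, integral_Ioc_eq_integral_Ioo]
    have h2 : (fun s => G t s) = (Iio t).indicator (fun s => F t s) := by
      ext s
      simp only [hG, indicator, mem_Iio]
    rw [h2, integral_indicator measurableSet_Iio, hμ, Measure.restrict_restrict measurableSet_Iio]
    congr 2
    ext s
    simp only [mem_Ioo, mem_inter_iff, mem_Iio, mem_Ioc]
    constructor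
    · rintro ⟨h1, h2⟩
      exact ⟨h2, h1, h2.le.trans ht.2⟩
    · rintro ⟨h1, h2, _⟩
      exact ⟨h2, h1⟩
  have h3 : ∫ s in a..b, ∫ t in s..b, F t s = ∫ s, ∫ t, G t s ∂μ ∂μ := by
    rw [intervalIntegral.integral_of_le hab]
    refine setIntegral_congr_fun measurableSet_Ioc fun s hs => ?_
    show ∫ t in s..b, F t s = ∫ t, G t s ∂μ
    rw [intervalIntegral.integral_of_le hs.2]
    have h2 : (fun t => G t s) = (Ioi s).indicator (fun t => F t s) := by
      ext t
      simp only [hG, indicator, mem_Ioi]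
    rw [h2, integral_indicator measurableSet_Ioi, hμ, Measure.restrict_restrict measurableSet_Ioi]
    congr 2
    ext t
    simp only [mem_Ioc, mem_inter_iff, mem_Ioi]
    constructor
    · rintro ⟨h1, h2⟩
      exact ⟨h1, hs.1.trans h1, h2⟩
    · rintro ⟨h1, _, h2⟩
      exact ⟨h1, h2⟩
  rw [h1, h3]
  exact integral_integral_swap hGi

/-- Smoothness of weighted parametric integrals. -/
theorem contDiff_param {E : Type*} [NormedAddCommGroup E] [NormedSpace ℝ E] {a b : ℝ}
    (hab : a ≤ b) {w : ℝ → ℝ} (hw : IntervalIntegrable w volume a b) {Ψ : E → ℝ → ℝ}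
    (hΨ : ContDiff ℝ ∞ (Function.uncurry Ψ)) :
    ContDiff ℝ ∞ fun p => ∫ x in a..b, w x * Ψ p x := by
  -- a cutoff
  obtain ⟨χ, hχs, hχc, hχ1⟩ : ∃ χ : ℝ → ℝ, ContDiff ℝ ∞ χ ∧ HasCompactSupport χ ∧
      ∀ x ∈ Icc a b, χ x = 1 := by
    let φ : ContDiffBump ((a + b) / 2) := ⟨(b - a) / 2 + 1, (b - a) / 2 + 2, by linarith, by linarith⟩
    refine ⟨φ, φ.contDiff, φ.hasCompactSupport, fun x hx => φ.one_of_mem_closedBall ?_⟩
    show dist x ((a + b) / 2) ≤ (b - a) / 2 + 1
    rw [Real.dist_eq, abs_le]
    constructor <;> linarith [hx.1, hx.2]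
  set f : ℝ → ℝ := (Ioc a b).indicator w with hf
  have hfi : Integrable f volume := by
    rw [hf, integrable_indicator_iff measurableSet_Ioc]
    exact (intervalIntegrable_iff_integrableOn_Ioc_of_le hab).1 hw
  set g : E → ℝ → ℝ := fun p x => Ψ p (-x) * χ (-x) with hg
  have hgc : ContDiffOn ℝ ∞ (Function.uncurry g) (univ ×ˢ univ) := by
    rw [univ_prod_univ, contDiffOn_univ]
    have h1 : Function.uncurry g = fun q : E × ℝ => Function.uncurry Ψ (q.1, -q.2) * χ (-q.2) := rfl
    rw [h1]
    exact (hΨ.comp (contDiff_fst.prodMk contDiff_snd.neg)).mul (hχs.comp contDiff_snd.neg)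
  have hk : IsCompact (-tsupport χ) := hχc.isCompact.neg
  have key := contDiffOn_convolution_right_with_param (n := ⊤) (μ := volume) (ContinuousLinearMap.mul ℝ ℝ)
    (f := f) (g := g) isOpen_univ hk (fun p x _ hx => by
      have : -x ∉ tsupport χ := by
        intro h
        exact hx (by simpa using h)
      simp only [hg, image_eq_zero_of_notMem_tsupport this, mul_zero]) hfi.locallyIntegrable hgc
  rw [univ_prod_univ, contDiffOn_univ] at key
  have h2 := key.comp (contDiff_id.prodMk contDiff_const : ContDiff ℝ ∞ fun p : E => (p, (0:ℝ)))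
  have h3 : (fun p => ∫ x in a..b, w x * Ψ p x) =
      ((fun q : E × ℝ => (convolution f (g q.1) (ContinuousLinearMap.mul ℝ ℝ) volume) q.2) ∘
        fun x => (id x, 0)) := by
    funext p
    simp only [Function.comp, convolution, ContinuousLinearMap.mul_apply', hg, zero_sub, neg_neg]
    rw [intervalIntegral.integral_of_le hab, ← integral_indicator measurableSet_Ioc]
    refine integral_congr_ae (Eventually.of_forall fun x => ?_)
    by_cases hx : x ∈ Ioc a b
    · simp only [hf, indicator_of_mem hx, hχ1 x ⟨hx.1.le, hx.2⟩, mul_one, id]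
    · simp only [hf, indicator_of_notMem hx, zero_mul]
  rw [h3]
  exact h2

theorem rpow_half (x : ℝ) : x ^ (-(1/2) : ℝ) = (√x)⁻¹ := by
  rcases le_or_gt 0 x with h | h
  · rw [Real.rpow_neg h, Real.sqrt_eq_rpow]
  · rw [Real.rpow_def_of_neg h, Real.sqrt_eq_zero_of_nonpos h.le, inv_zero]
    have : Real.cos (-(1/2) * Real.pi) = 0 := by
      rw [show -(1/2) * Real.pi = -(Real.pi / 2) by ring, Real.cos_neg, Real.cos_pi_div_two]
    rw [this, mul_zero]

/-- the weight of the Abel kernel is integrable -/
theorem inv_sqrt_int' (a b : ℝ) : IntervalIntegrable (fun x : ℝ => (√x)⁻¹) volume a b := by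
  have h0 : IntervalIntegrable (fun x : ℝ => x ^ (-(1/2) : ℝ)) volume a b :=
    intervalIntegral.intervalIntegrable_rpow' (by norm_num)
  simpa only [rpow_half] using h0

theorem inv_sqrt_int (a b c : ℝ) : IntervalIntegrable (fun x : ℝ => (√(c - x))⁻¹) volume a b := by
  have h1 := (inv_sqrt_int' (c - a) (c - b)).comp_sub_left c
  rwa [sub_sub_cancel, sub_sub_cancel] at h1

end Q71.MO
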