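import Pool.Agent.Q71.MO.Swap

/-! Volterra integral equations of the second kind with smooth kernels. -/

set_option autoImplicit false

open MeasureTheory Set Filter Topology
open scoped ContDiff

namespace Q71.MO

/-- partial derivative in the first variable -/
noncomputable def d1 (K : ℝ → ℝ → ℝ) : ℝ → ℝ → ℝ := fun t s => deriv (fun t' => K t' s) t

theorem d1_hasDerivAt {K : ℝ → ℝ → ℝ} (hK : ContDiff ℝ ∞ (Function.uncurry K)) (t s : ℝ) :
    HasDerivAt (fun t' => K t' s) (d1 K t s) t := by
  have h : Differentiable ℝ (fun t' => K t' s) :=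
    (hK.comp (contDiff_id.prodMk contDiff_const)).differentiable (by simp)
  exact (h t).hasDerivAt

theorem d1_smooth {K : ℝ → ℝ → ℝ} (hK : ContDiff ℝ ∞ (Function.uncurry K)) :
    ContDiff ℝ ∞ (Function.uncurry (d1 K)) := by
  have h : Function.uncurry (d1 K) = fun p => fderiv ℝ (Function.uncurry K) p (1, 0) := by
    funext p
    obtain ⟨t, s⟩ := p
    show d1 K t s = _
    have h1 : HasFDerivAt (Function.uncurry K) (fderiv ℝ (Function.uncurry K) (t, s)) (t, s) :=
      (hK.differentiable (by simp) _).hasFDerivAt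
    have h2 : HasDerivAt (fun t' : ℝ => (t', s)) ((1 : ℝ), (0 : ℝ)) t :=
      (hasDerivAt_id t).prodMk (hasDerivAt_const t s)
    have h3 := HasFDerivAt.comp_hasDerivAt (f := fun t' : ℝ => (t', s)) t h1 h2
    exact (d1_hasDerivAt hK t s).unique h3
  rw [h]
  exact (hK.fderiv_right (m := ∞) (by simp)).clm_apply contDiff_const

theorem integ_cont {F : ℝ → ℝ → ℝ} (hF : Continuous (Function.uncurry F)) (a b : ℝ) :
    Integrable (Function.uncurry F)
      ((volume.restrict (Ioc a b)).prod (volume.restrict (Ioc a b))) := by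
  rw [Measure.prod_restrict]
  have h : IntegrableOn (Function.uncurry F) (Icc a b ×ˢ Icc a b) (volume.prod volume) :=
    hF.continuousOn.integrableOn_compact (isCompact_Icc.prod isCompact_Icc)
  exact h.mono_set (prod_mono Ioc_subset_Icc_self Ioc_subset_Icc_self)

theorem cont_param {K : ℝ → ℝ → ℝ} (hK : Continuous (Function.uncurry K)) {U : ℝ → ℝ}
    (hU : Continuous U) (T : ℝ) : Continuous fun t => ∫ s in T..t, K t s * U s :=
  intervalIntegral.continuous_parametric_intervalIntegral_of_continuous
    (f := fun t s => K t s * U s) (hK.mul (hU.comp continuous_snd)) continuous_id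

/-- Leibniz rule for the Volterra operator. -/
theorem leibniz {K : ℝ → ℝ → ℝ} (hK : ContDiff ℝ ∞ (Function.uncurry K)) {U : ℝ → ℝ}
    (hU : Continuous U) {T : ℝ} (hT : ∀ s ≤ T, U s = 0) (τ : ℝ) :
    HasDerivAt (fun t => ∫ s in T..t, K t s * U s)
      (K τ τ * U τ + ∫ s in T..τ, d1 K τ s * U s) τ := by
  have hc1 : Continuous fun y => K y y * U y :=
    (hK.continuous.comp (continuous_id.prodMk continuous_id)).mul hU
  have hc2 : Continuous fun y => ∫ s in T..y, d1 K y s * U s :=
    cont_param (d1_smooth hK).continuous hU T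
  have hint : ∀ (G : ℝ → ℝ), (∀ s ≤ T, G s = 0) → ∀ t ≤ T, ∫ s in T..t, G s = 0 := by
    intro G hG t ht
    rw [intervalIntegral.integral_symm, neg_eq_zero, intervalIntegral.integral_of_le ht]
    refine setIntegral_eq_zero_of_forall_eq_zero fun s hs => hG s hs.2
  have key : (fun t => ∫ s in T..t, K t s * U s) =
      fun t => ∫ y in T..t, (K y y * U y + ∫ s in T..y, d1 K y s * U s) := by
    funext t
    rcases le_total t T with h | h
    · rw [hint _ (fun s hs => by rw [hT s hs, mul_zero]) t h,
        hint _ (fun y hy => by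
          rw [hT y hy, mul_zero, zero_add]
          exact hint _ (fun s hs => by rw [hT s hs, mul_zero]) y hy) t h]
    · rw [intervalIntegral.integral_add (hc1.intervalIntegrable _ _) (hc2.intervalIntegrable _ _),
        swap h (integ_cont (F := fun y s => d1 K y s * U s)
          ((d1_smooth hK).continuous.mul (hU.comp continuous_snd)) _ _)]
      have h1 : ∀ s, ∫ y in s..t, d1 K y s * U s = K t s * U s - K s s * U s := by
        intro s
        rw [intervalIntegral.integral_mul_const, ← sub_mul]
        congr 1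
        refine intervalIntegral.integral_eq_sub_of_hasDerivAt
          (f := fun y => K y s) (fun y _ => d1_hasDerivAt hK y s) ?_
        exact ((d1_smooth hK).continuous.comp
          (continuous_id.prodMk continuous_const)).intervalIntegrable _ _
      simp only [h1]
      rw [intervalIntegral.integral_sub]
      · ring
      · exact ((hK.continuous.comp (continuous_const.prodMk continuous_id)).mul
          hU).intervalIntegrable _ _
      · exact hc1.intervalIntegrable _ _
  rw [key]
  exact intervalIntegral.integral_hasDerivAt_right ((hc1.add hc2).intervalIntegrable _ _)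
    ((hc1.add hc2).stronglyMeasurableAtFilter _ _) (hc1.add hc2).continuousAt

/-- The Volterra operator gains one derivative. -/
theorem boot {T : ℝ} (n : ℕ) : ∀ {K : ℝ → ℝ → ℝ}, ContDiff ℝ ∞ (Function.uncurry K) →
    ∀ {U : ℝ → ℝ}, ContDiff ℝ n U → (∀ s ≤ T, U s = 0) →
    ContDiff ℝ (n + 1 : ℕ) (fun t => ∫ s in T..t, K t s * U s) := by
  induction n with
  | zero =>
    intro K hK U hU hT
    have hd := fun τ => leibniz hK hU.continuous hT τ
    rw [zero_add, Nat.cast_one, contDiff_one_iff_deriv]
    refine ⟨fun τ => (hd τ).differentiableAt, ?_⟩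
    have h1 : deriv (fun t => ∫ s in T..t, K t s * U s) = fun τ =>
      K τ τ * U τ + ∫ s in T..τ, d1 K τ s * U s := funext fun τ => (hd τ).deriv
    rw [h1]
    exact ((hK.continuous.comp (continuous_id.prodMk continuous_id)).mul hU.continuous).add
      (cont_param (d1_smooth hK).continuous hU.continuous T)
  | succ n ih =>
    intro K hK U hU hT
    have hd := fun τ => leibniz hK hU.continuous hT τ
    have h1 : deriv (fun t => ∫ s in T..t, K t s * U s) = fun τ =>
      K τ τ * U τ + ∫ s in T..τ, d1 K τ s * U s := funext fun τ => (hd τ).deriv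
    rw [Nat.cast_succ, contDiff_succ_iff_deriv]
    refine ⟨fun τ => (hd τ).differentiableAt, by simp, ?_⟩
    rw [h1]
    refine ContDiff.add ?_ (ih (d1_smooth hK) (hU.of_le (by exact_mod_cast Nat.le_succ n)) hT)
    exact ((hK.comp (contDiff_id.prodMk contDiff_id)).of_le (by exact_mod_cast le_top)).mul hU

/-- Continuous solutions of a Volterra equation of the second kind. -/
theorem volt_cont {K : ℝ → ℝ → ℝ} (hK : Continuous (Function.uncurry K)) {F : ℝ → ℝ}
    (hF : Continuous F) {T T₂ : ℝ} (hT : T ≤ T₂) (hFT : F T = 0) :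
    ∃ U : ℝ → ℝ, Continuous U ∧ (∀ t ≤ T, U t = 0) ∧
      ∀ t ∈ Icc T T₂, U t = F t + ∫ s in T..t, K t s * U s := by
  obtain ⟨M, hM⟩ : ∃ M, ∀ p ∈ Icc T T₂ ×ˢ Icc T T₂, ‖Function.uncurry K p‖ ≤ M :=
    (isCompact_Icc.prod isCompact_Icc).exists_bound_of_continuousOn hK.continuousOn
  have hM0 : 0 ≤ M := (norm_nonneg _).trans (hM (T, T) ⟨⟨le_rfl, hT⟩, ⟨le_rfl, hT⟩⟩)
  set L : ℝ := 2 * M + 1 with hL
  have hL0 : 0 < L := by positivity
  have hpr : Continuous fun s : ℝ => projIcc T T₂ hT s := continuous_projIcc
  let Φ : C(Icc T T₂, ℝ) → C(Icc T T₂, ℝ) := fun X =>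
    ⟨fun t => Real.exp (-L * t) * F t +
      ∫ s in T..(t : ℝ), K t s * Real.exp (-L * (t - s)) * X (projIcc T T₂ hT s), by
        refine Continuous.add ?_ ?_
        · exact (Real.continuous_exp.comp (continuous_const.mul continuous_subtype_val)).mul
            (hF.comp continuous_subtype_val)
        · refine intervalIntegral.continuous_parametric_intervalIntegral_of_continuous
            (f := fun (t : Icc T T₂) s => K t s * Real.exp (-L * (t - s)) *
              X (projIcc T T₂ hT s)) ?_ continuous_subtype_val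
          refine ((hK.comp ((continuous_subtype_val.comp continuous_fst).prodMk
            continuous_snd)).mul (Real.continuous_exp.comp (continuous_const.mul
            ((continuous_subtype_val.comp continuous_fst).sub continuous_snd)))).mul
            (X.continuous.comp (hpr.comp continuous_snd))⟩
  have hΦa : ∀ (X : C(Icc T T₂, ℝ)) (t : Icc T T₂), Φ X t = Real.exp (-L * t) * F t +
      ∫ s in T..(t : ℝ), K t s * Real.exp (-L * (t - s)) * X (projIcc T T₂ hT s) :=
    fun _ _ => rfl
  have hΦ : ContractingWith (1/2) Φ := by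
    refine ⟨by norm_num, LipschitzWith.of_dist_le_mul fun X Y => ?_⟩
    rw [ContinuousMap.dist_le (by positivity)]
    intro t
    set D := dist X Y with hD
    have hD0 : 0 ≤ D := dist_nonneg
    have hci : ∀ X : C(Icc T T₂, ℝ), IntervalIntegrable (fun s => K t s *
        Real.exp (-L * (t - s)) * X (projIcc T T₂ hT s)) volume T t := by
      intro X
      refine Continuous.intervalIntegrable ?_ _ _
      exact ((hK.comp (continuous_const.prodMk continuous_id)).mul
        (Real.continuous_exp.comp (continuous_const.mul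
          (continuous_const.sub continuous_id)))).mul (X.continuous.comp hpr)
    have h1 : Φ X t - Φ Y t = ∫ s in T..(t : ℝ), K t s * Real.exp (-L * (t - s)) *
        (X (projIcc T T₂ hT s) - Y (projIcc T T₂ hT s)) := by
      rw [hΦa, hΦa, add_sub_add_left_eq_sub, ← intervalIntegral.integral_sub (hci X) (hci Y)]
      refine intervalIntegral.integral_congr fun s _ => ?_
      show _ * _ * _ - _ * _ * _ = _
      ring
    have hexp : ∫ s in T..(t : ℝ), Real.exp (-L * (t - s)) =
        1 / L - Real.exp (-L * (t - T)) / L := by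
      have h2 : ∀ s ∈ uIcc T (t : ℝ), HasDerivAt (fun s => Real.exp (-L * ((t : ℝ) - s)) / L)
          (Real.exp (-L * (t - s))) s := by
        intro s _
        have h3 : HasDerivAt (fun s => -L * ((t : ℝ) - s)) L s := by
          have := ((hasDerivAt_id s).const_sub (t : ℝ)).const_mul (-L)
          simpa using this
        have h4 := (h3.exp).div_const L
        rwa [mul_div_cancel_right₀ _ hL0.ne'] at h4
      rw [intervalIntegral.integral_eq_sub_of_hasDerivAt h2
        (Continuous.intervalIntegrable (by fun_prop) _ _)]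
      simp
    rw [Real.dist_eq, h1]
    have h5 : |∫ s in T..(t : ℝ), K t s * Real.exp (-L * (t - s)) *
        (X (projIcc T T₂ hT s) - Y (projIcc T T₂ hT s))| ≤
        ∫ s in T..(t : ℝ), M * D * Real.exp (-L * (t - s)) := by
      rw [← Real.norm_eq_abs]
      refine intervalIntegral.norm_integral_le_of_norm_le t.2.1 (Eventually.of_forall fun s hs => ?_)
        (Continuous.intervalIntegrable (by fun_prop) _ _)
      rw [norm_mul, norm_mul, Real.norm_of_nonneg (Real.exp_pos _).le]
      have h6 : ‖K t s‖ ≤ M := hM (t, s) ⟨t.2, hs.1.le, hs.2.trans t.2.2⟩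
      have h7 : ‖X (projIcc T T₂ hT s) - Y (projIcc T T₂ hT s)‖ ≤ D := by
        rw [← dist_eq_norm]
        exact ContinuousMap.dist_apply_le_dist _
      calc ‖K t s‖ * Real.exp (-L * (t - s)) * ‖X (projIcc T T₂ hT s) - Y (projIcc T T₂ hT s)‖
          ≤ M * Real.exp (-L * (t - s)) * D := by gcongr
        _ = _ := by ring
    refine h5.trans ?_
    rw [intervalIntegral.integral_const_mul, hexp]
    have h8 : 1 / L - Real.exp (-L * (t - T)) / L ≤ 1 / L := by
      have := (Real.exp_pos (-L * (t - T))).le
      have : 0 ≤ Real.exp (-L * (t - T)) / L := by positivity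
      linarith
    have h9 : M / L ≤ 1 / 2 := by
      rw [div_le_div_iff₀ hL0 (by norm_num)]
      linarith
    calc M * D * (1 / L - Real.exp (-L * (t - T)) / L) ≤ M * D * (1 / L) := by gcongr
      _ = (M / L) * D := by ring
      _ ≤ (1 / 2) * D := by gcongr
      _ = _ := by simp
  have : Nonempty (C(Icc T T₂, ℝ)) := ⟨0⟩
  set X := ContractingWith.fixedPoint Φ hΦ with hX
  have hfix : Φ X = X := hΦ.fixedPoint_isFixedPt
  have hXe : ∀ t : Icc T T₂, X t = Real.exp (-L * t) * F t +
      ∫ s in T..(t : ℝ), K t s * Real.exp (-L * (t - s)) * X (projIcc T T₂ hT s) := by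
    intro t
    conv_lhs => rw [← hfix]
    exact hΦa X t
  refine ⟨fun t => Real.exp (L * t) * X (projIcc T T₂ hT t), ?_, ?_, ?_⟩
  · exact (Real.continuous_exp.comp (continuous_const.mul continuous_id)).mul
      (X.continuous.comp hpr)
  · intro t ht
    show _ * _ = _
    rw [projIcc_of_le_left hT ht, hXe]
    simp [hFT]
  · intro t ht
    show _ * _ = _
    rw [projIcc_of_mem hT ht, hXe]
    show Real.exp (L * t) * (Real.exp (-L * t) * F t + _) = _
    rw [mul_add, ← mul_assoc, ← Real.exp_add, show L * t + -L * t = 0 by ring, Real.exp_zero,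
      one_mul, ← intervalIntegral.integral_const_mul]
    congr 1
    refine intervalIntegral.integral_congr fun s _ => ?_
    show _ * (_ * _ * _) = _ * (_ * _)
    rw [show L * s = L * t + -L * (t - s) by ring, Real.exp_add]
    ring

theorem int_zero {T : ℝ} {G : ℝ → ℝ} (hG : ∀ s ≤ T, G s = 0) {t : ℝ} (ht : t ≤ T) :
    ∫ s in T..t, G s = 0 := by
  rw [intervalIntegral.integral_symm, neg_eq_zero, intervalIntegral.integral_of_le ht]
  exact setIntegral_eq_zero_of_forall_eq_zero fun s hs => hG s hs.2

/-- Smooth solutions of a Volterra equation of the second kind. -/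
theorem volt_smooth {K : ℝ → ℝ → ℝ} (hK : ContDiff ℝ ∞ (Function.uncurry K)) {F : ℝ → ℝ}
    (hF : ContDiff ℝ ∞ F) {T T₁ : ℝ} (hT : T ≤ T₁) (hF0 : ∀ t ≤ T, F t = 0) :
    ∃ U : ℝ → ℝ, ContDiff ℝ ∞ U ∧ (∀ t ≤ T, U t = 0) ∧
      ∀ t ∈ Icc T T₁, U t = F t + ∫ s in T..t, K t s * U s := by
  set χ : ℝ → ℝ := fun t => 1 - Real.smoothTransition (t - T₁) with hχ
  have hχs : ContDiff ℝ ∞ χ :=
    contDiff_const.sub (Real.smoothTransition.contDiff.comp (contDiff_id.sub contDiff_const))
  have hχ1 : ∀ t ≤ T₁, χ t = 1 := fun t ht => by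
    simp only [hχ]
    rw [Real.smoothTransition.zero_of_nonpos (by linarith), sub_zero]
  have hχ0 : ∀ t, T₁ + 1 ≤ t → χ t = 0 := fun t ht => by
    simp only [hχ]
    rw [Real.smoothTransition.one_of_one_le (by linarith), sub_self]
  set K' : ℝ → ℝ → ℝ := fun t s => χ t * K t s with hK'
  have hK's : ContDiff ℝ ∞ (Function.uncurry K') := (hχs.comp contDiff_fst).mul hK
  obtain ⟨U₀, hU₀c, hU₀0, hU₀⟩ := volt_cont hK's.continuous hF.continuous
    (show T ≤ T₁ + 1 by linarith) (hF0 T le_rfl)
  set U : ℝ → ℝ := fun t => F t + ∫ s in T..t, K' t s * U₀ s with hU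
  have hUU : ∀ t ≤ T₁ + 1, U t = U₀ t := by
    intro t ht
    rcases le_total t T with h | h
    · simp only [hU]
      rw [hF0 t h, hU₀0 t h, int_zero (fun s hs => by rw [hU₀0 s hs, mul_zero]) h, add_zero]
    · exact (hU₀ t ⟨h, ht⟩).symm
  have hU0 : ∀ t ≤ T, U t = 0 := fun t ht => by rw [hUU t (by linarith), hU₀0 t ht]
  have hUc : Continuous U := hF.continuous.add (cont_param hK's.continuous hU₀c T)
  have hUe : ∀ t, U t = F t + ∫ s in T..t, K' t s * U s := by
    intro t
    show F t + _ = _
    congr 1
    rcases le_total t (T₁ + 1) with h | h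
    · refine intervalIntegral.integral_congr fun s hs => ?_
      show _ * _ = _ * _
      have : s ≤ T₁ + 1 := hs.2.trans (max_le (by linarith) h)
      rw [hUU s this]
    · simp only [hK', hχ0 t h, zero_mul]
  have hUn : ∀ n : ℕ, ContDiff ℝ n U := by
    intro n
    induction n with
    | zero => exact contDiff_zero.2 hUc
    | succ n ih =>
      have h1 : U = fun t => F t + ∫ s in T..t, K' t s * U s := funext hUe
      have h2 := boot n hK's ih hU0
      rw [h1]
      exact (hF.of_le (by exact_mod_cast le_top)).add h2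
  refine ⟨U, contDiff_infty.2 hUn, hU0, fun t ht => ?_⟩
  rw [hUe t]
  congr 1
  refine intervalIntegral.integral_congr fun s _ => ?_
  show χ t * K t s * U s = _
  rw [hχ1 t ht.2, one_mul]

end Q71.MO
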